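import Mathlib

set_option autoImplicit false

/-!
# Arbors and their generating functions

Definitions for MP_edc851_co, and the relation between the two generating functions of an arbor.
-/

namespace Pool.Agent.Q141.Arbor

/-- Rooted forests whose vertices are finite subsets of `Fin n`, in first-child / next-sibling
form: `nil` is the empty forest; `cons v children rest` is the forest whose first tree has the root
`v` and, below `v`, the forest `children`, and whose other trees form the forest `rest`. -/
inductive Forest (n : ℕ) where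
  | nil : Forest n
  | cons (v : Finset (Fin n)) (children rest : Forest n) : Forest n

variable {n : ℕ}

/-- The union of all vertices (blocks) of a forest. -/
def Forest.supp : Forest n → Finset (Fin n)
  | .nil => ∅
  | .cons v children rest => (v ∪ children.supp) ∪ rest.supp

/-- The vertices (blocks) of the forest are nonempty and pairwise disjoint. -/
def Forest.Valid : Forest n → Prop
  | .nil => True
  | .cons v children rest => v.Nonempty ∧ Disjoint v children.supp ∧
      Disjoint (v ∪ children.supp) rest.supp ∧ children.Valid ∧ rest.Valid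

/-- The sets `D(v)`, `v` a vertex of the forest: the union of `v` and of all blocks below `v`. -/
def Forest.desc : Forest n → List (Finset (Fin n))
  | .nil => []
  | .cons v children rest => (v ∪ children.supp) :: (children.desc ++ rest.desc)

/-! ### Splitting sums over functions with given support -/

open Finset

lemma split_sum (S T : Finset (Fin n)) (hST : Disjoint S T) (j : ℕ) (Φ Ψ : (Fin n → ℕ) → ℤ)
    (hΦ : ∀ x y, (∀ i ∈ S, x i = y i) → Φ x = Φ y) (hΨ : ∀ x y, (∀ i ∈ T, x i = y i) → Ψ x = Ψ y) :
    ∑ x ∈ piAntidiag (S ∪ T) j, Φ x * Ψ x =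
      ∑ ab ∈ antidiagonal j, (∑ x ∈ piAntidiag S ab.1, Φ x) * ∑ x ∈ piAntidiag T ab.2, Ψ x := by
  simp_rw [Finset.sum_mul_sum]
  simp_rw [← Finset.sum_product']
  rw [Finset.sum_sigma']
  refine Finset.sum_bij' (i := fun x _ => ⟨(∑ i ∈ S, x i, ∑ i ∈ T, x i),
      (fun i => if i ∈ S then x i else 0, fun i => if i ∈ T then x i else 0)⟩)
    (j := fun p _ => fun i => p.2.1 i + p.2.2 i) ?_ ?_ ?_ ?_ ?_
  · intro x hx
    rw [mem_piAntidiag] at hx
    rw [mem_sigma, HasAntidiagonal.mem_antidiagonal, mem_product, mem_piAntidiag, mem_piAntidiag]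
    refine ⟨?_, ⟨?_, ?_⟩, ?_, ?_⟩
    · simp only
      rw [← hx.1, sum_union hST]
    · simp only
      exact Finset.sum_congr rfl fun i hi => by rw [if_pos hi]
    · intro i hi
      by_contra h
      simp [h] at hi
    · simp only
      exact Finset.sum_congr rfl fun i hi => by rw [if_pos hi]
    · intro i hi
      by_contra h
      simp [h] at hi
  · rintro ⟨⟨a, b⟩, ⟨x, y⟩⟩ hp
    rw [mem_sigma, HasAntidiagonal.mem_antidiagonal, mem_product, mem_piAntidiag, mem_piAntidiag] at hp
    obtain ⟨h1, ⟨h2, h3⟩, h4, h5⟩ := hp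
    simp only at h1 h2 h3 h4 h5
    rw [mem_piAntidiag]
    have hxT : ∑ i ∈ T, x i = 0 := by
      apply Finset.sum_eq_zero
      intro i hi
      by_contra h
      exact Finset.disjoint_left.1 hST (h3 i h) hi
    have hyS : ∑ i ∈ S, y i = 0 := by
      apply Finset.sum_eq_zero
      intro i hi
      by_contra h
      exact Finset.disjoint_left.1 hST hi (h5 i h)
    refine ⟨?_, ?_⟩
    · simp only
      rw [sum_union hST, sum_add_distrib, sum_add_distrib, h2, hyS, hxT, h4, ← h1]
      ring
    · intro i hi
      simp only [ne_eq, Nat.add_eq_zero_iff, not_and_or] at hi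
      rw [mem_union]
      rcases hi with hi | hi
      · exact Or.inl (h3 i hi)
      · exact Or.inr (h5 i hi)
  · intro x hx
    rw [mem_piAntidiag] at hx
    ext i
    simp only
    by_cases h1 : i ∈ S
    · have h2 : i ∉ T := Finset.disjoint_left.1 hST h1
      rw [if_pos h1, if_neg h2]; rfl
    · rw [if_neg h1]
      by_cases h2 : i ∈ T
      · rw [if_pos h2]; simp
      · rw [if_neg h2]
        by_contra h3
        have := hx.2 i (fun h => h3 (by rw [h]; rfl))
        rw [mem_union] at this
        tauto
  · rintro ⟨⟨a, b⟩, ⟨x, y⟩⟩ hp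
    rw [mem_sigma, HasAntidiagonal.mem_antidiagonal, mem_product, mem_piAntidiag, mem_piAntidiag] at hp
    obtain ⟨h1, ⟨h2, h3⟩, h4, h5⟩ := hp
    simp only at h1 h2 h3 h4 h5
    have hxT : ∀ i ∈ T, x i = 0 := by
      intro i hi
      by_contra h
      exact Finset.disjoint_left.1 hST (h3 i h) hi
    have hyS : ∀ i ∈ S, y i = 0 := by
      intro i hi
      by_contra h
      exact Finset.disjoint_left.1 hST hi (h5 i h)
    have hx' : ∀ i, i ∉ S → x i = 0 := fun i hi => by
      by_contra h; exact hi (h3 i h)
    have hy' : ∀ i, i ∉ T → y i = 0 := fun i hi => by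
      by_contra h; exact hi (h5 i h)
    have e1 : ∑ i ∈ S, (x i + y i) = a := by
      rw [← h2]
      exact Finset.sum_congr rfl fun i hi => by rw [hyS i hi, add_zero]
    have e2 : ∑ i ∈ T, (x i + y i) = b := by
      rw [← h4]
      exact Finset.sum_congr rfl fun i hi => by rw [hxT i hi, zero_add]
    have e3 : (fun i => if i ∈ S then x i + y i else 0) = x := by
      ext i
      split_ifs with h
      · rw [hyS i h, add_zero]
      · rw [hx' i h]
    have e4 : (fun i => if i ∈ T then x i + y i else 0) = y := by
      ext i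
      split_ifs with h
      · rw [hxT i h, zero_add]
      · rw [hy' i h]
    simp only [e1, e2, e3, e4]
  · intro x hx
    simp only
    congr 1
    · apply hΦ
      intro i hi
      rw [if_pos hi]
    · apply hΨ
      intro i hi
      rw [if_pos hi]

/-! ### Generating functions of forests -/

open PowerSeries

/-- keep the coefficients with `p` -/
noncomputable def tr (p : ℕ → Prop) [DecidablePred p] (A : ℤ⟦X⟧) : ℤ⟦X⟧ :=
  PowerSeries.mk fun j => if p j then coeff j A else 0

lemma coeff_tr (p : ℕ → Prop) [DecidablePred p] (A : ℤ⟦X⟧) (j : ℕ) :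
    coeff j (tr p A) = if p j then coeff j A else 0 := by simp [tr]

lemma tr_add (p : ℕ → Prop) [DecidablePred p] (A B : ℤ⟦X⟧) : tr p (A + B) = tr p A + tr p B := by
  ext j
  rw [map_add, coeff_tr, coeff_tr, coeff_tr]
  split_ifs <;> simp

/-- the generating function with the weights `ω` and the constraints `pr` -/
noncomputable def z (ω : ℤ⟦X⟧) (pr : ℕ → ℕ → Prop) [∀ s, DecidablePred (pr s)] : Forest n → ℤ⟦X⟧
  | .nil => 1
  | .cons v children rest =>
      tr (pr (v ∪ children.supp).card) (ω ^ v.card * z ω pr children) * z ω pr rest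

/-- `x` satisfies the constraints -/
def Ok (pr : ℕ → ℕ → Prop) (F : Forest n) (x : Fin n → ℕ) : Prop :=
  ∀ D ∈ F.desc, pr D.card (∑ i ∈ D, x i)

lemma Ok_nil (pr : ℕ → ℕ → Prop) (x : Fin n → ℕ) : Ok pr (Forest.nil : Forest n) x := by
  intro D hD; simp [Forest.desc] at hD

lemma Ok_cons (pr : ℕ → ℕ → Prop) (v : Finset (Fin n)) (ch rest : Forest n) (x : Fin n → ℕ) :
    Ok pr (.cons v ch rest) x ↔
      pr (v ∪ ch.supp).card (∑ i ∈ v ∪ ch.supp, x i) ∧ Ok pr ch x ∧ Ok pr rest x := by
  unfold Ok
  simp only [Forest.desc, List.mem_cons, List.mem_append]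
  constructor
  · intro h
    exact ⟨h _ (Or.inl rfl), fun D hD => h D (Or.inr (Or.inl hD)), fun D hD => h D (Or.inr (Or.inr hD))⟩
  · rintro ⟨h1, h2, h3⟩ D (rfl | hD | hD)
    · exact h1
    · exact h2 D hD
    · exact h3 D hD

lemma desc_subset : ∀ (F : Forest n), ∀ D ∈ F.desc, D ⊆ F.supp
  | .nil, D, hD => by simp [Forest.desc] at hD
  | .cons v ch rest, D, hD => by
    simp only [Forest.desc, List.mem_cons, List.mem_append] at hD
    simp only [Forest.supp]
    rcases hD with rfl | hD | hD
    · exact subset_union_left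
    · exact (desc_subset ch D hD).trans (subset_union_right.trans subset_union_left)
    · exact (desc_subset rest D hD).trans subset_union_right

lemma Ok_congr (pr : ℕ → ℕ → Prop) (F : Forest n) (x y : Fin n → ℕ) (h : ∀ i ∈ F.supp, x i = y i) :
    Ok pr F x ↔ Ok pr F y := by
  unfold Ok
  refine forall₂_congr fun D hD => ?_
  rw [Finset.sum_congr rfl fun i hi => h i (desc_subset F D hD hi)]

open Classical in
/-- the weight of `x` -/
noncomputable def wt (ω : ℤ⟦X⟧) (pr : ℕ → ℕ → Prop) (F : Forest n) (x : Fin n → ℕ) : ℤ :=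
  if Ok pr F x then ∏ i ∈ F.supp, coeff (x i) ω else 0

lemma coeff_pow_card (ω : ℤ⟦X⟧) (v : Finset (Fin n)) (j : ℕ) :
    coeff j (ω ^ v.card) = ∑ x ∈ piAntidiag v j, ∏ i ∈ v, coeff (x i) ω := by
  induction v using Finset.induction generalizing j with
  | empty =>
    rw [piAntidiag_empty]
    simp only [card_empty, pow_zero, coeff_one]
    split_ifs with h <;> simp
  | insert a v ha ih =>
    have h1 := split_sum {a} v (by simpa using ha) j (fun x => coeff (x a) ω)
      (fun x => ∏ i ∈ v, coeff (x i) ω) (fun x y h => by rw [h a (by simp)])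
      (fun x y h => Finset.prod_congr rfl fun i hi => by rw [h i hi])
    rw [← Finset.insert_eq] at h1
    rw [card_insert_of_notMem ha, pow_succ', coeff_mul]
    have h2 : ∀ x : Fin n → ℕ, ∏ i ∈ insert a v, coeff (x i) ω =
        coeff (x a) ω * ∏ i ∈ v, coeff (x i) ω := fun x => Finset.prod_insert ha
    simp_rw [h2]
    rw [h1]
    apply Finset.sum_congr rfl
    intro ab _
    rw [ih]
    congr 1
    have h3 : piAntidiag ({a} : Finset (Fin n)) ab.1 = {fun i => if i = a then ab.1 else 0} := by
      ext x
      rw [mem_piAntidiag, Finset.mem_singleton, sum_singleton]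
      constructor
      · rintro ⟨h4, h5⟩
        ext i
        split_ifs with hi
        · rw [hi]; exact h4
        · by_contra h6
          exact hi (Finset.mem_singleton.1 (h5 i h6))
      · rintro rfl
        refine ⟨by simp, ?_⟩
        intro i hi
        by_contra h6
        rw [Finset.mem_singleton] at h6
        simp [h6] at hi
    rw [h3]; simp

open Classical in
/-- The coefficients of the generating function. -/
lemma coeff_z (ω : ℤ⟦X⟧) (pr : ℕ → ℕ → Prop) [∀ s, DecidablePred (pr s)] :
    ∀ (F : Forest n), F.Valid → ∀ j, coeff j (z ω pr F) = ∑ x ∈ piAntidiag F.supp j, wt ω pr F x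
  | .nil, _, j => by
    simp only [z, Forest.supp, piAntidiag_empty, coeff_one, wt]
    split_ifs with h
    · simp [Ok_nil]
    · simp
  | .cons v ch rest, hF, j => by
    obtain ⟨_, h1, h2, h3, h4⟩ := hF
    have ih1 := coeff_z ω pr ch h3
    have ih2 := coeff_z ω pr rest h4
    have htree : ∀ k, coeff k (tr (pr (v ∪ ch.supp).card) (ω ^ v.card * z ω pr ch)) =
        ∑ x ∈ piAntidiag (v ∪ ch.supp) k,
          (if pr (v ∪ ch.supp).card (∑ i ∈ v ∪ ch.supp, x i) then
            (∏ i ∈ v, coeff (x i) ω) * wt ω pr ch x else 0) := by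
      intro k
      rw [coeff_tr]
      have h5 : ∀ x ∈ piAntidiag (v ∪ ch.supp) k,
          (if pr (v ∪ ch.supp).card (∑ i ∈ v ∪ ch.supp, x i) then
            (∏ i ∈ v, coeff (x i) ω) * wt ω pr ch x else 0) =
          (if pr (v ∪ ch.supp).card k then
            (∏ i ∈ v, coeff (x i) ω) * wt ω pr ch x else 0) := by
        intro x hx
        rw [(mem_piAntidiag.1 hx).1]
      rw [Finset.sum_congr rfl h5]
      split_ifs with hk
      · rw [coeff_mul, split_sum v ch.supp h1 k (fun x => ∏ i ∈ v, coeff (x i) ω) (wt ω pr ch)]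
        · apply Finset.sum_congr rfl
          intro ab _
          rw [coeff_pow_card, ih1]
        · exact fun x y h => Finset.prod_congr rfl fun i hi => by rw [h i hi]
        · intro x y h
          unfold wt
          rw [if_congr (Ok_congr pr ch x y h) (Finset.prod_congr rfl fun i hi => by rw [h i hi]) rfl]
      · simp
    simp only [z, Forest.supp]
    rw [coeff_mul]
    simp_rw [htree, ih2]
    rw [← split_sum (v ∪ ch.supp) rest.supp h2 j]
    · apply Finset.sum_congr rfl
      intro x _
      unfold wt
      simp only [Ok_cons, Forest.supp]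
      rw [Finset.prod_union h2, Finset.prod_union h1]
      by_cases c1 : pr (v ∪ ch.supp).card (∑ i ∈ v ∪ ch.supp, x i)
      · by_cases c2 : Ok pr ch x
        · by_cases c3 : Ok pr rest x
          · simp [c1, c2, c3]
          · simp [c1, c2, c3]
        · simp [c1, c2]
      · simp [c1]
    · intro x y h
      have e1 : ∑ i ∈ v ∪ ch.supp, x i = ∑ i ∈ v ∪ ch.supp, y i := Finset.sum_congr rfl h
      have e2 : wt ω pr ch x = wt ω pr ch y := by
        unfold wt
        have h' : ∀ i ∈ ch.supp, x i = y i := fun i hi => h i (mem_union_right _ hi)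
        rw [if_congr (Ok_congr pr ch x y h') (Finset.prod_congr rfl fun i hi => by rw [h' i hi]) rfl]
      have e3 : ∏ i ∈ v, coeff (x i) ω = ∏ i ∈ v, coeff (y i) ω :=
        Finset.prod_congr rfl fun i hi => by rw [h i (mem_union_left _ hi)]
      rw [e1, e2, e3]
    · intro x y h
      unfold wt
      rw [if_congr (Ok_congr pr rest x y h) (Finset.prod_congr rfl fun i hi => by rw [h i hi]) rfl]

end Pool.Agent.Q141.Arbor
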