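import Pool.Agent.Q141.Arbor.Basic

set_option autoImplicit false

/-!
# The relation between the two generating functions of an arbor
-/

namespace Pool.Agent.Q141.Arbor

open Finset PowerSeries

variable {n : ℕ}

/-- `1 + X + X² + …` -/
noncomputable def geo : ℤ⟦X⟧ := PowerSeries.mk fun _ => 1

/-- `(1 + X)^(m+1)` -/
noncomputable def bin (m : ℕ) : ℤ⟦X⟧ := (1 + X) ^ (m + 1)

lemma coeff_one_add (N k : ℕ) : coeff k ((1 + X : ℤ⟦X⟧) ^ N) = (N.choose k : ℤ) := by
  have : ((1 + X : ℤ⟦X⟧) ^ N) = (((1 + Polynomial.X) ^ N : Polynomial ℤ) : ℤ⟦X⟧) := by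
    simp
  rw [this, Polynomial.coeff_coe, Polynomial.coeff_one_add_X_pow]

lemma geo_pow (d : ℕ) : geo ^ (d + 1) = PowerSeries.mk fun k => ((d + k).choose d : ℤ) := by
  have h1 : geo * (1 - X) = 1 := by
    have := mk_add_choose_mul_one_sub_pow_eq_one ℤ 0
    simpa [geo] using this
  have h2 : (PowerSeries.mk fun k => ((d + k).choose d : ℤ)) * (1 - X) ^ (d + 1) = 1 := by
    have := mk_add_choose_mul_one_sub_pow_eq_one ℤ d
    exact this
  calc geo ^ (d + 1) = geo ^ (d + 1) * ((PowerSeries.mk fun k => ((d + k).choose d : ℤ)) * (1 - X) ^ (d + 1)) := by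
        rw [h2, mul_one]
    _ = (geo * (1 - X)) ^ (d + 1) * (PowerSeries.mk fun k => ((d + k).choose d : ℤ)) := by
        rw [mul_pow]; ring
    _ = _ := by rw [h1, one_pow, one_mul]

/-- the basic identity between negative binomial and binomial coefficients -/
lemma binomial_identity (d M : ℕ) : tr (fun j => d + 1 ≤ j) ((1 + X : ℤ⟦X⟧) ^ (d + 1 + M)) =
    X ^ (d + 1) * ∑ i ∈ range (M + 1), PowerSeries.C ((d + i).choose d : ℤ) * (1 + X) ^ (M - i) := by
  induction M with
  | zero =>
    ext k
    rw [coeff_tr, coeff_one_add]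
    simp only [zero_add, range_one, sum_singleton, add_zero, Nat.choose_self, Nat.cast_one, map_one,
      Nat.sub_self, pow_zero, mul_one, coeff_X_pow]
    split_ifs with h1 h2
    · rw [h2, Nat.choose_self]; simp
    · rw [Nat.choose_eq_zero_of_lt (by omega)]; simp
    · omega
    · rfl
  | succ M ih =>
    have hU : ∑ i ∈ range (M + 1 + 1), PowerSeries.C ((d + i).choose d : ℤ) * (1 + X : ℤ⟦X⟧) ^ (M + 1 - i) =
        (1 + X) * (∑ i ∈ range (M + 1), PowerSeries.C ((d + i).choose d : ℤ) * (1 + X : ℤ⟦X⟧) ^ (M - i)) +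
          PowerSeries.C ((d + (M + 1)).choose d : ℤ) := by
      rw [sum_range_succ, Nat.sub_self, pow_zero, mul_one, mul_sum]
      congr 1
      apply sum_congr rfl
      intro i hi
      rw [mem_range] at hi
      have : M + 1 - i = (M - i) + 1 := by omega
      rw [this, pow_succ]; ring
    rw [hU, mul_add, ← mul_assoc, mul_comm (X ^ (d + 1)) (1 + X), mul_assoc, ← ih]
    ext k
    rw [coeff_tr, coeff_one_add, map_add, add_mul, one_mul, map_add, coeff_tr, coeff_one_add,
      mul_comm (X ^ (d + 1)) (PowerSeries.C _), coeff_C_mul, coeff_X_pow]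
    rcases k with _ | k
    · simp
    · rw [coeff_succ_X_mul, coeff_tr, coeff_one_add]
      have e : d + 1 + (M + 1) = (d + 1 + M) + 1 := by ring
      rw [e, Nat.choose_succ_succ]
      by_cases h1 : d + 1 ≤ k
      · rw [if_pos (by omega), if_pos (by omega), if_pos h1, if_neg (by omega)]
        push_cast; ring
      · by_cases h2 : d = k
        · subst h2
          rw [if_pos (by omega), if_pos (by omega), if_neg h1, if_pos rfl]
          have : d + (M + 1) = d + 1 + M := by ring
          rw [this]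
          push_cast; ring
        · rw [if_neg (by omega), if_neg (by omega), if_neg h1, if_neg (by omega)]
          ring

lemma tr_shift (a b : ℕ) (A : ℤ⟦X⟧) : tr (fun j => a + b ≤ j) (X ^ b * A) =
    X ^ b * tr (fun j => a ≤ j) A := by
  ext k
  rw [coeff_tr, coeff_X_pow_mul', coeff_X_pow_mul']
  by_cases h : b ≤ k
  · rw [if_pos h, if_pos h, coeff_tr]
    by_cases h2 : a ≤ k - b
    · rw [if_pos h2, if_pos (by omega)]
    · rw [if_neg h2, if_neg (by omega)]
  · rw [if_neg h, if_neg h, if_neg (by omega)]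

lemma tr_C_mul (p : ℕ → Prop) [DecidablePred p] (r : ℤ) (A : ℤ⟦X⟧) :
    tr p (PowerSeries.C r * A) = PowerSeries.C r * tr p A := by
  ext k
  rw [coeff_tr, coeff_C_mul, coeff_C_mul, coeff_tr]
  split_ifs <;> simp

lemma reflect_sum {ι : Type} (s : Finset ι) (f : ι → Polynomial ℤ) (N : ℕ) :
    Polynomial.reflect N (∑ i ∈ s, f i) = ∑ i ∈ s, Polynomial.reflect N (f i) := by
  classical
  induction s using Finset.induction with
  | empty => simp
  | insert a s ha ih => rw [sum_insert ha, sum_insert ha, Polynomial.reflect_add, ih]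

/-- the polynomial `∑ α_j (1+X)^(N-j)` for `A = ∑ α_j X^j` -/
noncomputable def psi (N : ℕ) (A : Polynomial ℤ) : Polynomial ℤ :=
  (Polynomial.reflect N A).comp (1 + Polynomial.X)

lemma psi_add (N : ℕ) (A B : Polynomial ℤ) : psi N (A + B) = psi N A + psi N B := by
  simp [psi, Polynomial.reflect_add]

lemma psi_mul {M N : ℕ} {A B : Polynomial ℤ} (hA : A.natDegree ≤ M) (hB : B.natDegree ≤ N) :
    psi (M + N) (A * B) = psi M A * psi N B := by
  simp [psi, Polynomial.reflect_mul _ _ hA hB]

lemma psi_monomial (N j : ℕ) (h : j ≤ N) (r : ℤ) :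
    psi N (Polynomial.C r * Polynomial.X ^ j) = Polynomial.C r * (1 + Polynomial.X) ^ (N - j) := by
  rw [psi, Polynomial.reflect_C_mul_X_pow, Polynomial.revAt_le h]
  simp

lemma psi_sum {ι : Type} (s : Finset ι) (f : ι → Polynomial ℤ) (N : ℕ) :
    psi N (∑ i ∈ s, f i) = ∑ i ∈ s, psi N (f i) := by
  rw [psi, reflect_sum, ← Polynomial.coe_compRingHom_apply, map_sum]
  rfl

lemma psi_eval {N : ℕ} {A : Polynomial ℤ} (hA : A.natDegree ≤ N) : (psi N A).eval 0 = A.eval 1 := by
  have : Invertible (1 : ℤ) := invertibleOne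
  have h := Polynomial.eval₂_reflect_mul_pow (RingHom.id ℤ) (1 : ℤ) N A hA
  simp only [invOf_one, one_pow, mul_one, Polynomial.eval₂_id] at h
  rw [psi, Polynomial.eval_comp]
  simpa using h

/-- The step from the forest below a vertex to the tree with this vertex as root. -/
lemma tree_step (m d t : ℕ) (A : Polynomial ℤ) (hA : A.natDegree ≤ m * t) :
    ∃ B : Polynomial ℤ, B.natDegree ≤ m * (d + 1 + t) ∧
      tr (fun j => j ≤ m * (d + 1 + t)) (geo ^ (d + 1) * (A : ℤ⟦X⟧)) = (B : ℤ⟦X⟧) ∧
      tr (fun j => d + 1 + t ≤ j) (bin m ^ (d + 1) * ((Polynomial.X ^ t * psi (m * t) A : Polynomial ℤ) : ℤ⟦X⟧)) =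
        ((Polynomial.X ^ (d + 1 + t) * psi (m * (d + 1 + t)) B : Polynomial ℤ) : ℤ⟦X⟧) := by
  refine Polynomial.induction_with_natDegree_le (fun A => ∃ B : Polynomial ℤ,
      B.natDegree ≤ m * (d + 1 + t) ∧
      tr (fun j => j ≤ m * (d + 1 + t)) (geo ^ (d + 1) * (A : ℤ⟦X⟧)) = (B : ℤ⟦X⟧) ∧
      tr (fun j => d + 1 + t ≤ j) (bin m ^ (d + 1) * ((Polynomial.X ^ t * psi (m * t) A : Polynomial ℤ) : ℤ⟦X⟧)) =
        ((Polynomial.X ^ (d + 1 + t) * psi (m * (d + 1 + t)) B : Polynomial ℤ) : ℤ⟦X⟧)) (m * t)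
    ?_ ?_ ?_ A hA
  · refine ⟨0, by simp, ?_, ?_⟩
    · ext k; simp [coeff_tr]
    · ext k; simp [coeff_tr, psi]
  · intro j r _ hj
    set M := m * (d + 1 + t) - j with hM
    have hjM : j + M = m * (d + 1 + t) := by
      have : m * t ≤ m * (d + 1 + t) := Nat.mul_le_mul_left m (by omega)
      omega
    refine ⟨∑ i ∈ range (M + 1), Polynomial.C (r * ((d + i).choose d : ℤ)) * Polynomial.X ^ (i + j),
      ?_, ?_, ?_⟩
    · apply Polynomial.natDegree_sum_le_of_forall_le
      intro i hi
      rw [mem_range] at hi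
      refine (Polynomial.natDegree_C_mul_X_pow_le _ _).trans ?_
      omega
    · ext k
      rw [coeff_tr, geo_pow, Polynomial.coeff_coe, Polynomial.finsetSum_coeff]
      have h1 : coeff k ((PowerSeries.mk fun k => ((d + k).choose d : ℤ)) *
          ((Polynomial.C r * Polynomial.X ^ j : Polynomial ℤ) : ℤ⟦X⟧)) =
          if j ≤ k then r * ((d + (k - j)).choose d : ℤ) else 0 := by
        rw [Polynomial.coe_mul, Polynomial.coe_C, Polynomial.coe_pow, Polynomial.coe_X, mul_comm,
          mul_assoc, coeff_C_mul, coeff_X_pow_mul']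
        split_ifs with h
        · rw [coeff_mk]
        · ring
      rw [h1]
      simp only [Polynomial.coeff_C_mul_X_pow]
      by_cases h2 : k ≤ m * (d + 1 + t)
      · rw [if_pos h2]
        by_cases h3 : j ≤ k
        · rw [if_pos h3, Finset.sum_eq_single (k - j)]
          · rw [if_pos (by omega)]
          · intro i _ hi
            rw [if_neg (by omega)]
          · intro h
            exact absurd (mem_range.2 (by omega)) h
        · rw [if_neg h3]
          symm
          apply Finset.sum_eq_zero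
          intro i _
          rw [if_neg (by omega)]
      · rw [if_neg h2]
        symm
        apply Finset.sum_eq_zero
        intro i hi
        rw [mem_range] at hi
        rw [if_neg (by omega)]
    · have h1 : bin m ^ (d + 1) * ((Polynomial.X ^ t * psi (m * t) (Polynomial.C r * Polynomial.X ^ j) :
          Polynomial ℤ) : ℤ⟦X⟧) = PowerSeries.C r * (X ^ t * (1 + X) ^ (d + 1 + M)) := by
        rw [psi_monomial _ _ hj]
        simp only [bin, Polynomial.coe_mul, Polynomial.coe_pow, Polynomial.coe_X, Polynomial.coe_C,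
          Polynomial.coe_add, Polynomial.coe_one]
        have e : d + 1 + M = (m + 1) * (d + 1) + (m * t - j) := by
          have : m * (d + 1 + t) = m * (d + 1) + m * t := by ring
          have e2 : (m + 1) * (d + 1) = m * (d + 1) + (d + 1) := by ring
          omega
        rw [e, pow_add (1 + X : ℤ⟦X⟧) ((m + 1) * (d + 1)), pow_mul (1 + X : ℤ⟦X⟧)]
        ring
      rw [h1, tr_C_mul, tr_shift, binomial_identity]
      have h2 : psi (m * (d + 1 + t)) (∑ i ∈ range (M + 1),
          Polynomial.C (r * ((d + i).choose d : ℤ)) * Polynomial.X ^ (i + j)) =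
          ∑ i ∈ range (M + 1), Polynomial.C (r * ((d + i).choose d : ℤ)) * (1 + Polynomial.X) ^ (M - i) := by
        rw [psi_sum]
        apply sum_congr rfl
        intro i hi
        rw [mem_range] at hi
        rw [psi_monomial _ _ (by omega)]
        congr 2
        omega
      rw [h2]
      have h3 : ((∑ i ∈ range (M + 1), Polynomial.C (r * ((d + i).choose d : ℤ)) *
          (1 + Polynomial.X) ^ (M - i) : Polynomial ℤ) : ℤ⟦X⟧) =
          PowerSeries.C r * ∑ i ∈ range (M + 1), PowerSeries.C ((d + i).choose d : ℤ) * (1 + X) ^ (M - i) := by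
        rw [← Polynomial.coeToPowerSeries.ringHom_apply, map_sum, mul_sum]
        apply sum_congr rfl
        intro i _
        rw [Polynomial.coeToPowerSeries.ringHom_apply]
        simp only [Polynomial.coe_mul, Polynomial.coe_pow, Polynomial.coe_X, Polynomial.coe_C,
          Polynomial.coe_add, Polynomial.coe_one, map_mul]
        ring
      rw [Polynomial.coe_mul, h3, Polynomial.coe_pow, Polynomial.coe_X, pow_add X (d + 1) t]
      ring
  · rintro A B _ _ ⟨A', h1, h2, h3⟩ ⟨B', h4, h5, h6⟩
    refine ⟨A' + B', ?_, ?_, ?_⟩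
    · exact (Polynomial.natDegree_add_le _ _).trans (max_le h1 h4)
    · rw [Polynomial.coe_add, mul_add (geo ^ (d + 1)), tr_add, h2, h5, Polynomial.coe_add]
    · rw [psi_add, mul_add (Polynomial.X ^ t), Polynomial.coe_add, mul_add (bin m ^ (d + 1)), tr_add,
        h3, h6, psi_add, mul_add (Polynomial.X ^ (d + 1 + t)), Polynomial.coe_add]

/-- the constraints of lattice points in the `m`-th dilate -/
abbrev prF (m : ℕ) : ℕ → ℕ → Prop := fun s j => j ≤ m * s

/-- the constraints of contents of words -/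
abbrev prG : ℕ → ℕ → Prop := fun s j => s ≤ j

lemma relation (m : ℕ) : ∀ F : Forest n, F.Valid → ∃ A : Polynomial ℤ,
    A.natDegree ≤ m * F.supp.card ∧ z geo (prF m) F = (A : ℤ⟦X⟧) ∧
      z (bin m) prG F = ((Polynomial.X ^ F.supp.card * psi (m * F.supp.card) A : Polynomial ℤ) : ℤ⟦X⟧)
  | .nil, _ => by
    refine ⟨1, by simp, by simp [z], ?_⟩
    simp [z, Forest.supp, psi]
  | .cons v ch rest, hF => by
    obtain ⟨h0, h1, h2, h3, h4⟩ := hF
    obtain ⟨A, a1, a2, a3⟩ := relation m ch h3
    obtain ⟨R, r1, r2, r3⟩ := relation m rest h4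
    obtain ⟨d, hd⟩ : ∃ d, v.card = d + 1 := ⟨v.card - 1, by have := Finset.card_pos.2 h0; omega⟩
    obtain ⟨B, b1, b2, b3⟩ := tree_step m d ch.supp.card A a1
    have hcard : (v ∪ ch.supp).card = d + 1 + ch.supp.card := by
      rw [card_union_of_disjoint h1, hd]
    have hcard2 : (Forest.cons v ch rest).supp.card = (d + 1 + ch.supp.card) + rest.supp.card := by
      simp only [Forest.supp]
      rw [card_union_of_disjoint h2, hcard]
    refine ⟨B * R, ?_, ?_, ?_⟩
    · refine Polynomial.natDegree_mul_le.trans ?_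
      rw [hcard2, mul_add]
      exact add_le_add b1 r1
    · simp only [z]
      rw [hd, a2, r2, Polynomial.coe_mul, ← b2, hcard]
    · simp only [z]
      rw [hd, a3, r3, hcard, b3, hcard2, mul_add m (d + 1 + ch.supp.card) rest.supp.card,
        psi_mul b1 r1, pow_add Polynomial.X (d + 1 + ch.supp.card), ← Polynomial.coe_mul]
      congr 1
      ring

/-- The number of lattice points expressed through the second generating function. -/
lemma count_eq (m : ℕ) (F : Forest n) (hF : F.Valid) (hs : F.supp = Finset.univ) :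
    ∑ j ∈ range (m * n + 1), coeff j (z geo (prF m) F) = coeff n (z (bin m) prG F) := by
  obtain ⟨A, a1, a2, a3⟩ := relation m F hF
  have hc : F.supp.card = n := by rw [hs]; simp
  rw [hc] at a1 a3
  rw [a2, a3, Polynomial.coe_mul, Polynomial.coe_pow, Polynomial.coe_X]
  have h1 : coeff n (X ^ n * (psi (m * n) A : ℤ⟦X⟧)) = coeff 0 (psi (m * n) A : ℤ⟦X⟧) := by
    have := coeff_X_pow_mul (psi (m * n) A : ℤ⟦X⟧) n 0
    simpa using this
  rw [h1, Polynomial.coeff_coe, Polynomial.coeff_zero_eq_eval_zero, psi_eval a1,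
    Polynomial.eval_eq_sum_range' (n := m * n + 1) (by omega)]
  apply sum_congr rfl
  intro j _
  simp

end Pool.Agent.Q141.Arbor
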