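import Pool.Agent.Q141.Arbor.Relation

set_option autoImplicit false

/-!
# Words and their descents
-/

namespace Pool.Agent.Q141.Arbor

open Finset

/-! ### Strictly monotone maps and finite sets -/

open Classical in
lemma card_strictMono {α : Type} [LinearOrder α] [Fintype α] (n : ℕ) (P : Finset α → Prop) :
    (univ.filter (fun f : Fin n → α => StrictMono f ∧ P (univ.image f))).card =
      ((powersetCard n (univ : Finset α)).filter P).card := by
  refine Finset.card_bij (fun f _ => univ.image f) ?_ ?_ ?_
  · intro f hf
    rw [mem_filter] at hf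
    rw [mem_filter, mem_powersetCard]
    refine ⟨⟨subset_univ _, ?_⟩, hf.2.2⟩
    rw [card_image_of_injective _ hf.2.1.injective]
    simp
  · intro f hf g hg h
    rw [mem_filter] at hf hg
    have hc : (univ.image f).card = n := by
      rw [card_image_of_injective _ hf.2.1.injective]; simp
    have h1 := orderEmbOfFin_unique hc (f := f) (fun x => mem_image_of_mem f (mem_univ x)) hf.2.1
    have h2 := orderEmbOfFin_unique hc (f := g)
      (fun x => by rw [h]; exact mem_image_of_mem g (mem_univ x)) hg.2.1
    rw [h1, h2]
  · intro G hG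
    rw [mem_filter, mem_powersetCard] at hG
    refine ⟨G.orderEmbOfFin hG.1.2, ?_, ?_⟩
    · rw [mem_filter]
      refine ⟨mem_univ _, (G.orderEmbOfFin hG.1.2).strictMono, ?_⟩
      have : univ.image (G.orderEmbOfFin hG.1.2) = G := by
        apply Finset.coe_injective
        rw [coe_image, coe_univ, Set.image_univ, range_orderEmbOfFin]
      rw [this]; exact hG.2
    · apply Finset.coe_injective
      rw [coe_image, coe_univ, Set.image_univ, range_orderEmbOfFin]

open Classical in
lemma card_strictMono_fin (n M : ℕ) :
    (univ.filter (fun f : Fin n → Fin M => StrictMono f)).card = M.choose n := by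
  have := card_strictMono (α := Fin M) n (fun _ => True)
  simpa using this

/-! ### Words -/

/-- the number of descents of a word of length `N + 1` -/
def desc' {N : ℕ} {β : Type} [LT β] [DecidableLT β] (w : Fin (N + 1) → β) : ℕ :=
  (univ.filter (fun i : Fin N => w i.succ < w i.castSucc)).card

/-- the number of descents before `j` -/
def dc {N : ℕ} {β : Type} [LT β] [DecidableLT β] (w : Fin (N + 1) → β) (j : Fin (N + 1)) : ℕ :=
  (univ.filter (fun i : Fin N => (i : ℕ) < j ∧ w i.succ < w i.castSucc)).card

variable {N : ℕ} {β : Type} [LinearOrder β]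

lemma dc_le (w : Fin (N + 1) → β) (j : Fin (N + 1)) : dc w j ≤ desc' w := by
  apply card_le_card
  intro i hi
  rw [mem_filter] at hi ⊢
  exact ⟨hi.1, hi.2.2⟩

lemma dc_zero (w : Fin (N + 1) → β) : dc w 0 = 0 := by
  simp [dc]

lemma dc_last (w : Fin (N + 1) → β) : dc w (Fin.last N) = desc' w := by
  unfold dc desc'
  congr 1
  ext i
  simp

lemma dc_succ (w : Fin (N + 1) → β) (i : Fin N) :
    dc w i.succ = dc w i.castSucc + if w i.succ < w i.castSucc then 1 else 0 := by
  unfold dc
  split_ifs with h
  · have : univ.filter (fun a : Fin N => (a : ℕ) < (i.succ : Fin (N + 1)) ∧ w a.succ < w a.castSucc) =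
        insert i (univ.filter (fun a : Fin N => (a : ℕ) < (i.castSucc : Fin (N + 1)) ∧ w a.succ < w a.castSucc)) := by
      ext a
      simp only [mem_filter, mem_univ, true_and, mem_insert, Fin.val_succ, Fin.val_castSucc]
      constructor
      · rintro ⟨h1, h2⟩
        by_cases ha : a = i
        · exact Or.inl ha
        · right
          have : (a : ℕ) ≠ i := fun h => ha (Fin.ext h)
          exact ⟨by omega, h2⟩
      · rintro (rfl | ⟨h1, h2⟩)
        · exact ⟨by omega, h⟩
        · exact ⟨by omega, h2⟩
    rw [this, card_insert_of_notMem]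
    simp
  · rw [add_zero]
    congr 1
    ext a
    simp only [mem_filter, mem_univ, true_and, Fin.val_succ, Fin.val_castSucc]
    constructor
    · rintro ⟨h1, h2⟩
      refine ⟨?_, h2⟩
      by_contra h3
      have : a = i := Fin.ext (by omega)
      subst this
      exact h h2
    · rintro ⟨h1, h2⟩
      exact ⟨by omega, h2⟩

/-- the condition on the columns -/
def Col {m : ℕ} (w : Fin (N + 1) → β) (k : Fin (N + 1) → Fin (m + 1)) : Prop :=
  ∀ i : Fin N, k i.castSucc < k i.succ ∨ (k i.castSucc = k i.succ ∧ w i.succ < w i.castSucc)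

open Classical in
lemma card_col (m : ℕ) (w : Fin (N + 1) → β) :
    (univ.filter (fun k : Fin (N + 1) → Fin (m + 1) => Col w k)).card =
      (m + 1 + desc' w).choose (N + 1) := by
  rw [← card_strictMono_fin]
  refine Finset.card_bij (fun k _ => fun j => ⟨(k j : ℕ) + dc w j, ?_⟩) ?_ ?_ ?_
  · have := dc_le w j
    have := (k j).2
    omega
  · intro k hk
    rw [mem_filter] at hk ⊢
    refine ⟨mem_univ _, ?_⟩
    rw [Fin.strictMono_iff_lt_succ]
    intro i
    rw [Fin.lt_def]
    have hd := dc_succ w i
    show (k i.castSucc : ℕ) + dc w i.castSucc < (k i.succ : ℕ) + dc w i.succ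
    rcases hk.2 i with h | ⟨h1, h2⟩
    · rw [Fin.lt_def] at h
      split_ifs at hd <;> omega
    · rw [if_pos h2] at hd
      rw [h1]; omega
  · intro k hk k' hk' h
    ext j
    have := congrArg Fin.val (congrFun h j)
    simp only at this
    omega
  · intro κ hκ
    rw [mem_filter] at hκ
    have hs := Fin.strictMono_iff_lt_succ.1 hκ.2
    have hmono : Monotone (fun j : Fin (N + 1) => ((κ j : ℕ) : ℤ) - dc w j) := by
      rw [Fin.monotone_iff_le_succ]
      intro i
      have h1 := hs i
      rw [Fin.lt_def] at h1
      have h2 := dc_succ w i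
      have h3 : dc w i.succ ≤ dc w i.castSucc + 1 := by
        rw [h2]; split_ifs <;> omega
      omega
    have hlow : ∀ j, dc w j ≤ κ j := by
      intro j
      have h1 := hmono (Fin.zero_le j)
      simp only at h1
      rw [dc_zero] at h1
      omega
    have hup : ∀ j, (κ j : ℕ) - dc w j < m + 1 := by
      intro j
      have h1 := hmono (Fin.le_last j)
      simp only at h1
      rw [dc_last] at h1
      have h2 := (κ (Fin.last N)).2
      have h3 := hlow j
      omega
    refine ⟨fun j => ⟨(κ j : ℕ) - dc w j, hup j⟩, ?_, ?_⟩
    · rw [mem_filter]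
      refine ⟨mem_univ _, fun i => ?_⟩
      have h1 := hs i
      rw [Fin.lt_def] at h1
      have h2 := dc_succ w i
      have h3 := hlow i.castSucc
      have h4 := hlow i.succ
      by_cases hd : w i.succ < w i.castSucc
      · rw [if_pos hd] at h2
        rcases Nat.lt_or_ge ((κ i.castSucc : ℕ) - dc w i.castSucc) ((κ i.succ : ℕ) - dc w i.succ) with h5 | h5
        · exact Or.inl (Fin.lt_def.2 h5)
        · right
          refine ⟨Fin.ext ?_, hd⟩
          simp only
          omega
      · rw [if_neg hd] at h2
        left
        rw [Fin.lt_def]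
        simp only
        omega
    · ext j
      simp only
      have := hlow j
      omega

/-! ### Sets of cells -/

/-- cells, ordered by columns, and within a column by decreasing row -/
abbrev Cell (m n : ℕ) : Type := Fin (m + 1) ×ₗ (Fin n)ᵒᵈ

/-- the row of a cell -/
def rowOf {m n : ℕ} (p : Cell m n) : Fin n := OrderDual.ofDual (ofLex p).2

/-- the column of a cell -/
def colOf {m n : ℕ} (p : Cell m n) : Fin (m + 1) := (ofLex p).1

def mkCell {m n : ℕ} (k : Fin (m + 1)) (i : Fin n) : Cell m n := toLex (k, OrderDual.toDual i)

lemma row_mk {m n : ℕ} (k : Fin (m + 1)) (i : Fin n) : rowOf (mkCell k i) = i := rfl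
lemma col_mk {m n : ℕ} (k : Fin (m + 1)) (i : Fin n) : colOf (mkCell k i) = k := rfl
lemma mk_eta {m n : ℕ} (p : Cell m n) : mkCell (colOf p) (rowOf p) = p := rfl

lemma cell_lt {m n : ℕ} (p q : Cell m n) : p < q ↔
    colOf p < colOf q ∨ (colOf p = colOf q ∧ rowOf q < rowOf p) := by
  rw [Prod.Lex.lt_iff]
  rfl

lemma strictMono_iff {m n : ℕ} (f : Fin (N + 1) → Cell m n) :
    StrictMono f ↔ Col (fun j => rowOf (f j)) (fun j => colOf (f j)) := by
  rw [Fin.strictMono_iff_lt_succ]
  refine forall_congr' fun i => ?_
  rw [cell_lt]

open Classical in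
/-- summing over words = counting sets of cells -/
lemma words_cells (m n : ℕ) (P : (Fin n → ℕ) → Prop) :
    ∑ w ∈ univ.filter (fun w : Fin (N + 1) → Fin n => P (fun i => (univ.filter (fun j => w j = i)).card)),
        (m + 1 + desc' w).choose (N + 1) =
      ((powersetCard (N + 1) (univ : Finset (Cell m n))).filter
        (fun G => P (fun i => (G.filter (fun p => rowOf p = i)).card))).card := by
  rw [← card_strictMono]
  rw [Finset.card_eq_sum_card_fiberwise (f := fun f : Fin (N + 1) → Cell m n => fun j => rowOf (f j))
    (t := univ.filter (fun w : Fin (N + 1) → Fin n => P (fun i => (univ.filter (fun j => w j = i)).card)))]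
  · apply sum_congr rfl
    intro w hw
    rw [mem_filter] at hw
    rw [← card_col]
    refine Finset.card_bij (fun k _ => fun j => mkCell (k j) (w j)) ?_ ?_ ?_
    · intro k hk
      rw [mem_filter] at hk
      rw [mem_filter, mem_filter]
      have hmono : StrictMono (fun j => mkCell (k j) (w j)) := (strictMono_iff _).2 hk.2
      refine ⟨⟨mem_univ _, hmono, ?_⟩, rfl⟩
      have he : (fun i => ((univ.image (fun j => mkCell (k j) (w j))).filter
          (fun p => rowOf p = i)).card) = (fun i => (univ.filter (fun j => w j = i)).card) := by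
        funext i
        rw [Finset.filter_image, Finset.card_image_of_injective _ hmono.injective]
        rfl
      rw [he]
      exact hw.2
    · intro k _ k' _ h
      ext j
      have := congrArg colOf (congrFun h j)
      simp only [col_mk] at this
      rw [this]
    · intro f hf
      rw [mem_filter, mem_filter] at hf
      refine ⟨fun j => colOf (f j), ?_, ?_⟩
      · rw [mem_filter]
        refine ⟨mem_univ _, ?_⟩
        have := (strictMono_iff f).1 hf.1.2.1
        rw [← hf.2]; exact this
      · ext j : 1
        rw [← hf.2]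
        exact mk_eta (f j)
  · intro f hf
    rw [Finset.mem_coe, mem_filter] at hf
    rw [Finset.mem_coe, mem_filter]
    refine ⟨mem_univ _, ?_⟩
    have he : (fun i => ((univ.image f).filter
        (fun p => rowOf p = i)).card) = (fun i => (univ.filter (fun j => rowOf (f j) = i)).card) := by
      funext i
      rw [Finset.filter_image, Finset.card_image_of_injective _ hf.2.1.injective]
    have := hf.2.2
    rw [he] at this
    exact this

open Classical in
/-- sets of cells with given numbers of cells in the rows -/
lemma cells_rows (m n : ℕ) (c : Fin n → ℕ) :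
    ((univ : Finset (Finset (Cell m n))).filter
      (fun G => (fun i => (G.filter (fun p => rowOf p = i)).card) = c)).card = ∏ i, (m + 1).choose (c i) := by
  have h1 : ∏ i, (m + 1).choose (c i) =
      (Fintype.piFinset (fun i : Fin n => powersetCard (c i) (univ : Finset (Fin (m + 1))))).card := by
    rw [Fintype.card_piFinset]
    apply prod_congr rfl
    intro i _
    rw [card_powersetCard]; simp
  rw [h1]
  refine Finset.card_bij' (fun G _ => fun i => univ.filter (fun k => mkCell k i ∈ G))
    (fun E _ => univ.filter (fun p => colOf p ∈ E (rowOf p))) ?_ ?_ ?_ ?_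
  · intro G hG
    rw [mem_filter] at hG
    rw [Fintype.mem_piFinset]
    intro i
    rw [mem_powersetCard]
    refine ⟨subset_univ _, ?_⟩
    rw [← hG.2]
    simp only
    have : G.filter (fun p => rowOf p = i) = (univ.filter (fun k => mkCell k i ∈ G)).image (fun k => mkCell k i) := by
      ext p
      rw [mem_filter, mem_image]
      constructor
      · rintro ⟨h2, rfl⟩
        refine ⟨colOf p, ?_, mk_eta p⟩
        rw [mem_filter]
        exact ⟨mem_univ _, by rw [mk_eta]; exact h2⟩
      · rintro ⟨k, hk, rfl⟩
        rw [mem_filter] at hk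
        exact ⟨hk.2, row_mk k i⟩
    rw [this, card_image_of_injective]
    intro k k' h
    have := congrArg colOf h
    simpa [col_mk] using this
  · intro E hE
    rw [Fintype.mem_piFinset] at hE
    rw [mem_filter]
    refine ⟨mem_univ _, ?_⟩
    ext i
    have h2 := (mem_powersetCard.1 (hE i)).2
    rw [← h2]
    have : (univ.filter (fun p : Cell m n => colOf p ∈ E (rowOf p))).filter (fun p => rowOf p = i) =
        (E i).image (fun k => mkCell k i) := by
      ext p
      rw [mem_filter, mem_filter, mem_image]
      constructor
      · rintro ⟨⟨_, h3⟩, rfl⟩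
        exact ⟨colOf p, h3, mk_eta p⟩
      · rintro ⟨k, hk, rfl⟩
        exact ⟨⟨mem_univ _, hk⟩, row_mk k i⟩
    rw [this, card_image_of_injective]
    intro k k' h
    have := congrArg colOf h
    simpa [col_mk] using this
  · intro G _
    ext p
    simp only [mem_filter, mem_univ, true_and, mk_eta]
  · intro E _
    ext i k
    simp only [mem_filter, mem_univ, true_and, row_mk, col_mk]

open Classical in
lemma cells_sum (m n r : ℕ) (P : (Fin n → ℕ) → Prop) :
    ((powersetCard r (univ : Finset (Cell m n))).filter
        (fun G => P (fun i => (G.filter (fun p => rowOf p = i)).card))).card =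
      ∑ c ∈ piAntidiag (univ : Finset (Fin n)) r, if P c then ∏ i, (m + 1).choose (c i) else 0 := by
  rw [← Finset.sum_filter]
  rw [Finset.card_eq_sum_card_fiberwise (f := fun G : Finset (Cell m n) =>
      fun i => (G.filter (fun p => rowOf p = i)).card)
    (t := (piAntidiag (univ : Finset (Fin n)) r).filter P)]
  · apply sum_congr rfl
    intro c hc
    rw [mem_filter, mem_piAntidiag] at hc
    rw [← cells_rows]
    congr 1
    ext G
    rw [mem_filter, mem_filter, mem_filter, mem_powersetCard]
    constructor
    · rintro ⟨⟨⟨_, _⟩, _⟩, h⟩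
      exact ⟨mem_univ _, h⟩
    · rintro ⟨_, h⟩
      refine ⟨⟨⟨subset_univ _, ?_⟩, ?_⟩, h⟩
      · rw [← hc.1.1, ← h, Finset.card_eq_sum_card_fiberwise (f := rowOf) (t := univ)]
        intro p _; simp
      · rw [h]; exact hc.2
  · intro G hG
    rw [Finset.mem_coe, mem_filter, mem_powersetCard] at hG
    rw [Finset.mem_coe, mem_filter, mem_piAntidiag]
    refine ⟨⟨?_, fun i _ => mem_univ i⟩, hG.2⟩
    rw [← hG.1.2, Finset.card_eq_sum_card_fiberwise (f := rowOf) (t := univ)]
    intro p _; simp

end Pool.Agent.Q141.Arbor
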